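import Mathlib

set_option autoImplicit false

/-!
# Injective homomorphism counts into Desarguesian planes of prime order (MP_5e7574_co)

Let `H` be the point-line incidence graph of the Möbius-Kantor configuration (points and lines
`0, ..., 7`, the line `j` contains the points `j`, `j + 1`, `j + 3` modulo `8`) and let `G_p` be the
point-line incidence graph of `PG(2,p)`. There is an injective homomorphism from `H` to `G_p` if and
only if `x ^ 2 + x + 1` has a root in the field with `p` elements. So `inj(H, G_p) = 0` for the primes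
`p ≡ 2 (mod 3)` and `inj(H, G_p) ≥ 1` for the primes `p ≡ 1 (mod 3)`, and the sequence
`log_p inj(H, G_p)` does not converge when `p` runs through the primes.
-/

namespace Pool.Agent.Results.MP_5e7574_co.PrimeOrderPlanes

open Filter Topology Module

/-- The number of injective homomorphisms between bipartite graphs with labelled classes: `A`, `B`
are the classes of the first graph and `E` is its edge relation, `X`, `Y` and `I` are those of the
second one. -/
noncomputable def inj {A B X Y : Type} (E : A → B → Prop) (I : X → Y → Prop) : ℕ :=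
  Nat.card {h : (A → X) × (B → Y) //
    Function.Injective h.1 ∧ Function.Injective h.2 ∧ ∀ a b, E a b → I (h.1 a) (h.2 b)}

/-- The points of `PG(2,p)`: the one-dimensional subspaces of `F_p ^ 3`. -/
def Point (p : ℕ) : Type := {P : Submodule (ZMod p) (Fin 3 → ZMod p) // finrank (ZMod p) P = 1}

/-- The lines of `PG(2,p)`: the two-dimensional subspaces of `F_p ^ 3`. -/
def Line (p : ℕ) : Type := {L : Submodule (ZMod p) (Fin 3 → ZMod p) // finrank (ZMod p) L = 2}

/-- The incidence relation of `PG(2,p)`: a point lies on a line if the subspace is contained in it. -/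
def On (p : ℕ) (P : Point p) (L : Line p) : Prop := P.1 ≤ L.1

/-- `log_p n`, with `log_p 0 = -∞`. -/
noncomputable def logE (p n : ℕ) : EReal := if n = 0 then ⊥ else ((Real.logb p n : ℝ) : EReal)

/-- `log_p inj(H, G_p)` for the prime `p` with index `i`, `H` the bipartite graph with the edge
relation `E`. -/
noncomputable def seq {a b : ℕ} (E : Fin a → Fin b → Prop) (i : ℕ) : EReal :=
  logE (Nat.nth Nat.Prime i) (inj E (On (Nat.nth Nat.Prime i)))

/-- the Möbius-Kantor configuration: point `k` is on line `j` iff `k - j` is `0`, `1` or `3` -/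
def MK (k j : Fin 8) : Prop := k = j ∨ k = j + 1 ∨ k = j + 3

instance (k j : Fin 8) : Decidable (MK k j) := by unfold MK; infer_instance

section field

variable {K : Type} [Field K]

/-- two different points on a line span it -/
theorem span_two {P Q L : Submodule K (Fin 3 → K)} (hP : finrank K P = 1) (hQ : finrank K Q = 1)
    (hL : finrank K L = 2) (hPQ : P ≠ Q) (h1 : P ≤ L) (h2 : Q ≤ L) : P ⊔ Q = L := by
  apply Submodule.eq_of_le_of_finrank_le (sup_le h1 h2)
  have h3 := Submodule.finrank_sup_add_finrank_inf_eq P Q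
  have h4 : finrank K (P ⊓ Q : Submodule K (Fin 3 → K)) = 0 := by
    by_contra h5
    have h6 : finrank K (P ⊓ Q : Submodule K (Fin 3 → K)) ≤ finrank K P :=
      Submodule.finrank_mono inf_le_left
    have h7 : P ⊓ Q = P := Submodule.eq_of_le_of_finrank_le inf_le_left (by omega)
    have h8 : P ⊓ Q = Q := Submodule.eq_of_le_of_finrank_le inf_le_right (by omega)
    exact hPQ (h7.symm.trans h8)
  omega

/-- In a point of a line through two other points there is a vector which is the sum of nonzero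
vectors in these points. -/
theorem decomp {P Q R L : Submodule K (Fin 3 → K)} (hP : finrank K P = 1) (hQ : finrank K Q = 1)
    (hR : finrank K R = 1) (hL : finrank K L = 2) (hPQ : P ≠ Q) (hPR : P ≠ R) (hQR : Q ≠ R)
    (h1 : P ≤ L) (h2 : Q ≤ L) (h3 : R ≤ L) :
    ∃ x ∈ P, ∃ y ∈ Q, x ≠ 0 ∧ y ≠ 0 ∧ x + y ∈ R ∧ x + y ≠ 0 := by
  obtain ⟨r, hr, hr0⟩ := Submodule.exists_mem_ne_zero_of_ne_bot (p := R) (by
    rintro rfl
    rw [finrank_bot] at hR
    omega)
  have h4 : r ∈ P ⊔ Q := by
    rw [span_two hP hQ hL hPQ h1 h2]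
    exact h3 hr
  obtain ⟨x, hx, y, hy, rfl⟩ := Submodule.mem_sup.1 h4
  have key : ∀ {A B : Submodule K (Fin 3 → K)} (v : Fin 3 → K), finrank K A = 1 → finrank K B = 1 →
      v ∈ A → v ∈ B → v ≠ 0 → A = B := by
    intro A B v hA hB h5 h6 h7
    have h8 : finrank K (A ⊓ B : Submodule K (Fin 3 → K)) ≠ 0 := by
      rw [Ne, Submodule.finrank_eq_zero]
      intro h9
      apply h7
      have : v ∈ A ⊓ B := ⟨h5, h6⟩
      rwa [h9, Submodule.mem_bot] at this
    have h10 : A ⊓ B = A := Submodule.eq_of_le_of_finrank_le inf_le_left (by omega)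
    have h11 : A ⊓ B = B := Submodule.eq_of_le_of_finrank_le inf_le_right (by omega)
    exact h10.symm.trans h11
  refine ⟨x, hx, y, hy, ?_, ?_, hr, hr0⟩
  · rintro rfl
    rw [zero_add] at hr hr0
    exact hQR (key y hQ hR hy hr hr0)
  · rintro rfl
    rw [add_zero] at hr hr0
    exact hPR (key x hP hR hx hr hr0)

/-- two vectors of a point, the second one nonzero, are proportional -/
theorem smul_of {P : Submodule K (Fin 3 → K)} (hP : finrank K P = 1) {x y : Fin 3 → K}
    (hx : x ∈ P) (hy : y ∈ P) (hy0 : y ≠ 0) : ∃ c : K, x = c • y := by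
  obtain ⟨c, hc⟩ := (finrank_eq_one_iff_of_nonzero' (⟨y, hy⟩ : P)
    (by rw [Ne, Submodule.mk_eq_zero]; exact hy0)).1 hP ⟨x, hx⟩
  refine ⟨c, ?_⟩
  have := congrArg Subtype.val hc
  simpa using this.symm

/-- In the plane of a field without a root of `x ^ 2 + x + 1` there is no Möbius-Kantor
configuration, not even a degenerate one. -/
theorem root_of (P L : Fin 8 → Submodule K (Fin 3 → K)) (hP : ∀ i, finrank K (P i) = 1)
    (hL : ∀ i, finrank K (L i) = 2) (iP : Function.Injective P) (iL : Function.Injective L)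
    (hI : ∀ k j, MK k j → P k ≤ L j) : ∃ t : K, t ^ 2 + t + 1 = 0 := by
  have ne : ∀ i j : Fin 8, i ≠ j → P i ≠ P j := fun i j h h' => h (iP h')
  have nL : ∀ i j : Fin 8, i ≠ j → L i ≠ L j := fun i j h h' => h (iL h')
  -- scaled decompositions
  have dec : ∀ (i j k l : Fin 8), MK i l → MK j l → MK k l → i ≠ j → i ≠ k → j ≠ k →
      ∀ x ∈ P i, x ≠ 0 → ∃ y ∈ P j, y ≠ 0 ∧ x + y ∈ P k ∧ x + y ≠ 0 := by
    intro i j k l h1 h2 h3 h4 h5 h6 x hx hx0
    obtain ⟨x', hx', y, hy, hx0', hy0, hs, hs0⟩ := decomp (hP i) (hP j) (hP k) (hL l) (ne _ _ h4)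
      (ne _ _ h5) (ne _ _ h6) (hI _ _ h1) (hI _ _ h2) (hI _ _ h3)
    obtain ⟨c, hc⟩ := smul_of (hP i) hx hx' hx0'
    have hc0 : c ≠ 0 := by
      rintro rfl
      rw [zero_smul] at hc
      exact hx0 hc
    refine ⟨c • y, Submodule.smul_mem _ _ hy, smul_ne_zero hc0 hy0, ?_, ?_⟩
    · rw [hc, ← smul_add]
      exact Submodule.smul_mem _ _ hs
    · rw [hc, ← smul_add]
      exact smul_ne_zero hc0 hs0
  obtain ⟨x0, hx0, h00⟩ := Submodule.exists_mem_ne_zero_of_ne_bot (p := P 0) (by
    intro h
    have h1 := hP 0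
    rw [h, finrank_bot] at h1
    omega)
  obtain ⟨x1, hx1, h10, hx3, h30⟩ := dec 0 1 3 0 (by decide) (by decide) (by decide) (by decide)
    (by decide) (by decide) x0 hx0 h00
  obtain ⟨x2, hx2, h20, hx7, h70⟩ := dec 0 2 7 7 (by decide) (by decide) (by decide) (by decide)
    (by decide) (by decide) x0 hx0 h00
  obtain ⟨y2, hy2, k20, hx4, h40⟩ := dec 1 2 4 1 (by decide) (by decide) (by decide) (by decide)
    (by decide) (by decide) x1 hx1 h10
  obtain ⟨t, ht⟩ := smul_of (hP 2) hy2 hx2 h20
  subst ht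
  obtain ⟨z2, hz2, l20, hx5, h50⟩ := dec 3 2 5 2 (by decide) (by decide) (by decide) (by decide)
    (by decide) (by decide) _ hx3 h30
  obtain ⟨s, hs⟩ := smul_of (hP 2) hz2 hx2 h20
  subst hs
  obtain ⟨y4, hy4, k40, hx6, h60⟩ := dec 3 4 6 3 (by decide) (by decide) (by decide) (by decide)
    (by decide) (by decide) _ hx3 h30
  obtain ⟨u, hu⟩ := smul_of (hP 4) hy4 hx4 h40
  subst hu
  -- the three further collinearities
  have col : ∀ (i j k l : Fin 8), MK i l → MK j l → MK k l → i ≠ j →
      ∀ x ∈ P i, ∀ y ∈ P j, ∀ z ∈ P k, x ≠ 0 → y ≠ 0 → ∃ a b : K, z = a • x + b • y := by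
    intro i j k l h1 h2 h3 h4 x hx y hy z hz hx0 hy0
    have h5 : z ∈ P i ⊔ P j := by
      rw [span_two (hP i) (hP j) (hL l) (ne _ _ h4) (hI _ _ h1) (hI _ _ h2)]
      exact hI _ _ h3 hz
    obtain ⟨v, hv, w, hw, rfl⟩ := Submodule.mem_sup.1 h5
    obtain ⟨a, ha⟩ := smul_of (hP i) hv hx hx0
    obtain ⟨b, hb⟩ := smul_of (hP j) hw hy hy0
    exact ⟨a, b, by rw [ha, hb]⟩
  obtain ⟨a, b, e7⟩ := col 4 5 7 4 (by decide) (by decide) (by decide) (by decide) _ hx4 _ hx5 _ hx7
    h40 h50
  obtain ⟨c, d, e6⟩ := col 5 0 6 5 (by decide) (by decide) (by decide) (by decide) _ hx5 _ hx0 _ hx6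
    h50 h00
  obtain ⟨e, f, e1⟩ := col 7 1 6 6 (by decide) (by decide) (by decide) (by decide) _ hx7 _ hx1 _ hx6
    h70 h10
  -- linear independence of `x0`, `x1`, `x2`
  have indep : ∀ a b c : K, a • x0 + b • x1 + c • x2 = 0 → a = 0 ∧ b = 0 ∧ c = 0 := by
    intro a b c h
    have hc : c = 0 := by
      by_contra hc
      have h1 : x2 ∈ P 0 ⊔ P 1 := by
        have h2 : x2 = (-(c⁻¹ * a)) • x0 + (-(c⁻¹ * b)) • x1 := by
          have h3 : c • x2 = -(a • x0 + b • x1) := by
            rw [eq_neg_iff_add_eq_zero, add_comm]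
            exact h
          have h4 : x2 = c⁻¹ • (c • x2) := by rw [smul_smul, inv_mul_cancel₀ hc, one_smul]
          rw [h4, h3, smul_neg, smul_add, smul_smul, smul_smul, neg_smul, neg_smul, neg_add]
        rw [h2]
        exact Submodule.add_mem_sup (Submodule.smul_mem _ _ hx0) (Submodule.smul_mem _ _ hx1)
      have h2 : P 0 ⊔ P 1 = L 0 := span_two (hP 0) (hP 1) (hL 0) (ne _ _ (by decide))
        (hI _ _ (by decide)) (hI _ _ (by decide))
      have h3 : P 2 ≤ L 0 := by
        intro v hv
        obtain ⟨k, hk⟩ := smul_of (hP 2) hv hx2 h20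
        rw [hk, ← h2]
        exact Submodule.smul_mem _ _ h1
      have h4 : P 1 ⊔ P 2 = L 0 := span_two (hP 1) (hP 2) (hL 0) (ne _ _ (by decide))
        (hI _ _ (by decide)) h3
      have h5 : P 1 ⊔ P 2 = L 1 := span_two (hP 1) (hP 2) (hL 1) (ne _ _ (by decide))
        (hI _ _ (by decide)) (hI _ _ (by decide))
      exact nL 0 1 (by decide) (h4.symm.trans h5)
    subst hc
    rw [zero_smul, add_zero] at h
    have hb : b = 0 := by
      by_contra hb
      have h1 : x1 = (-(b⁻¹ * a)) • x0 := by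
        have h3 : b • x1 = -(a • x0) := by
          rw [eq_neg_iff_add_eq_zero, add_comm]
          exact h
        have h4 : x1 = b⁻¹ • (b • x1) := by rw [smul_smul, inv_mul_cancel₀ hb, one_smul]
        rw [h4, h3, smul_neg, smul_smul, neg_smul]
      have h2 : x1 ∈ P 0 := by
        rw [h1]
        exact Submodule.smul_mem _ _ hx0
      have h3 : P 1 ≤ P 0 := by
        intro v hv
        obtain ⟨k, hk⟩ := smul_of (hP 1) hv hx1 h10
        rw [hk]
        exact Submodule.smul_mem _ _ h2
      exact ne 1 0 (by decide) (Submodule.eq_of_le_of_finrank_le h3 (by rw [hP, hP]))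
    subst hb
    rw [zero_smul, add_zero] at h
    refine ⟨?_, rfl, rfl⟩
    rcases smul_eq_zero.1 h with h1 | h1
    · exact h1
    · exact absurd h1 h00
  have r7 := indep (1 - b) (-(a + b)) (1 - (a * t + b * s)) (by
    have := sub_eq_zero.2 e7
    rw [← this]
    module)
  have r6 := indep (1 - c - d) (1 + u - c) (u * t - c * s) (by
    have := sub_eq_zero.2 e6
    rw [← this]
    module)
  have r1 := indep (1 - e) (1 + u - f) (u * t - e) (by
    have := sub_eq_zero.2 e1
    rw [← this]
    module)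
  obtain ⟨p1, p2, p3⟩ := r7
  obtain ⟨q1, q2, q3⟩ := r6
  obtain ⟨s1, s2, s3⟩ := r1
  refine ⟨t, ?_⟩
  have hb : b = 1 := by linear_combination -p1
  have ha : a = -1 := by linear_combination -p2 - hb
  have hs : s = 1 + t := by rw [ha, hb] at p3; linear_combination -p3
  have he : e = 1 := by linear_combination -s1
  have hut : u * t = 1 := by rw [he] at s3; linear_combination s3
  have hc : c = 1 + u := by linear_combination -q2
  have h1 : (1 + u) * (1 + t) = 1 := by rw [hc, hs] at q3; linear_combination -q3 + hut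
  have h2 : u = -1 - t := by linear_combination h1 - hut
  rw [h2] at hut
  linear_combination -hut

/-- The coordinates of the points. -/
def pt (t : K) : Fin 8 → Fin 3 → K :=
  ![![1, 0, 0], ![0, 1, 0], ![0, 0, 1], ![1, 1, 0], ![0, 1, t], ![1, 1, 1 + t], ![1, -t, 1],
    ![1, 0, 1]]

/-- The coordinates of the lines. -/
def ln (t : K) : Fin 8 → Fin 3 → K :=
  ![![0, 0, 1], ![1, 0, 0], ![1, -1, 0], ![t, -t, 1], ![1, t, -1], ![0, -(1 + t), 1], ![1, 0, -1],
    ![0, 1, 0]]

/-- the linear form with coefficients `w` -/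
def form (w : Fin 3 → K) : (Fin 3 → K) →ₗ[K] K :=
  w 0 • LinearMap.proj 0 + w 1 • LinearMap.proj 1 + w 2 • LinearMap.proj 2

theorem form_apply (w v : Fin 3 → K) : form w v = w 0 * v 0 + w 1 * v 1 + w 2 * v 2 := by
  simp [form]

theorem form_zero_iff {t : K} (ht : t ^ 2 + t + 1 = 0) (k j : Fin 8) :
    form (ln t j) (pt t k) = 0 ↔ MK k j := by
  have h0 : t ≠ 0 := by
    rintro rfl
    simp at ht
  have h1 : 1 + t ≠ 0 := by
    intro h
    have h2 : t = -1 := by linear_combination h
    rw [h2] at ht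
    norm_num at ht
  have h2 : t * t + t + 1 = 0 := by linear_combination ht
  have h3 : (1 + t) * t + 1 = 0 := by linear_combination ht
  have h4 : t + 1 ≠ 0 := by rwa [add_comm]
  rw [form_apply]
  constructor
  · intro h
    by_contra hn
    revert h hn
    fin_cases j <;> fin_cases k <;>
      simp [ln, pt, MK, h0, h1, h4, neg_eq_zero] <;> first
        | (intro h; exfalso; apply h0; linear_combination h)
        | (intro h; exfalso; apply h1; linear_combination h)
        | (intro h; exfalso; apply h0; linear_combination -h)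
        | (intro h; exfalso; apply h1; linear_combination -h)
  · intro h
    revert h
    fin_cases j <;> fin_cases k <;> simp [ln, pt, MK] <;> first
        | linear_combination ht

theorem pt_ne {t : K} (k : Fin 8) : pt t k ≠ 0 := by
  intro h
  have h0 := congrFun h 0
  have h1 := congrFun h 1
  have h2 := congrFun h 2
  revert h0 h1 h2
  fin_cases k <;> simp [pt]

theorem finrank_ker (w : Fin 3 → K) (i : Fin 3) (hw : w i ≠ 0) :
    finrank K (LinearMap.ker (form w)) = 2 := by
  have h1 := LinearMap.finrank_range_add_finrank_ker (form w)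
  have h2 : LinearMap.range (form w) = ⊤ := by
    rw [LinearMap.range_eq_top]
    intro y
    refine ⟨Pi.single i ((w i)⁻¹ * y), ?_⟩
    rw [form_apply]
    fin_cases i <;> simp at hw ⊢ <;> rw [← mul_assoc, mul_inv_cancel₀ hw, one_mul]
  rw [h2, finrank_top, finrank_self, finrank_fin_fun] at h1
  omega

theorem ln_ne {t : K} (j : Fin 8) : ∃ i, ln t j i ≠ 0 := by
  fin_cases j
  · exact ⟨2, by simp [ln]⟩
  · exact ⟨0, by simp [ln]⟩
  · exact ⟨0, by simp [ln]⟩
  · exact ⟨2, by simp [ln]⟩
  · exact ⟨0, by simp [ln]⟩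
  · exact ⟨2, by simp [ln]⟩
  · exact ⟨0, by simp [ln]⟩
  · exact ⟨1, by simp [ln]⟩

/-- If `x ^ 2 + x + 1` has a root, there is a Möbius-Kantor configuration. -/
theorem exists_of_root {t : K} (ht : t ^ 2 + t + 1 = 0) :
    ∃ P L : Fin 8 → Submodule K (Fin 3 → K), (∀ i, finrank K (P i) = 1) ∧
      (∀ i, finrank K (L i) = 2) ∧ Function.Injective P ∧ Function.Injective L ∧
      ∀ k j, MK k j → P k ≤ L j := by
  have hI : ∀ k j, Submodule.span K {pt t k} ≤ LinearMap.ker (form (ln t j)) ↔ MK k j := by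
    intro k j
    rw [Submodule.span_singleton_le_iff_mem, LinearMap.mem_ker, form_zero_iff ht]
  refine ⟨fun k => Submodule.span K {pt t k}, fun j => LinearMap.ker (form (ln t j)),
    fun k => finrank_span_singleton (pt_ne k), fun j => ?_, ?_, ?_, fun k j h => (hI k j).2 h⟩
  · obtain ⟨i, hi⟩ := ln_ne (t := t) j
    exact finrank_ker _ i hi
  · intro k k' h
    have h1 : ∀ j, MK k j ↔ MK k' j := by
      intro j
      rw [← hI, ← hI]
      simp only at h
      rw [h]
    revert h1
    clear h
    revert k k'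
    decide
  · intro j j' h
    have h1 : ∀ k, MK k j ↔ MK k j' := by
      intro k
      rw [← hI, ← hI]
      simp only at h
      rw [h]
    revert h1
    clear h
    revert j j'
    decide

end field

/-- The number of injective homomorphisms into the plane of order `p` is positive if and only if
`x ^ 2 + x + 1` has a root. -/
theorem inj_pos_iff (p : ℕ) [Fact p.Prime] : inj MK (On p) ≠ 0 ↔ ∃ t : ZMod p, t ^ 2 + t + 1 = 0 := by
  constructor
  · intro h
    obtain ⟨⟨⟨f, g⟩, h1, h2, h3⟩⟩ := (Nat.card_ne_zero.1 h).1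
    exact root_of (fun i => (f i).1) (fun i => (g i).1) (fun i => (f i).2) (fun i => (g i).2)
      (fun i j hij => h1 (Subtype.ext hij)) (fun i j hij => h2 (Subtype.ext hij)) h3
  · rintro ⟨t, ht⟩
    obtain ⟨P, L, hP, hL, iP, iL, hI⟩ := exists_of_root ht
    have f1 : Finite (Submodule (ZMod p) (Fin 3 → ZMod p)) :=
      Finite.of_injective (fun s => (s : Set (Fin 3 → ZMod p))) SetLike.coe_injective
    have f2 : Finite (Point p) := by unfold Point; infer_instance
    have f3 : Finite (Line p) := by unfold Line; infer_instance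
    unfold inj
    rw [Nat.card_ne_zero]
    refine ⟨⟨⟨(fun i => ⟨P i, hP i⟩, fun i => ⟨L i, hL i⟩), ?_, ?_, ?_⟩⟩, inferInstance⟩
    · intro i j hij
      exact iP (congrArg Subtype.val hij)
    · intro i j hij
      exact iL (congrArg Subtype.val hij)
    · exact hI

theorem root_of_one {p : ℕ} [Fact p.Prime] (h : p % 3 = 1) : ∃ t : ZMod p, t ^ 2 + t + 1 = 0 := by
  have h1 : 3 ∣ Fintype.card (ZMod p)ˣ := by
    rw [ZMod.card_units p]
    omega
  obtain ⟨u, hu⟩ := exists_prime_orderOf_dvd_card 3 h1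
  have h2 : u ^ 3 = 1 := by rw [← hu, pow_orderOf_eq_one]
  have h3 : u ≠ 1 := by
    rintro rfl
    rw [orderOf_one] at hu
    omega
  refine ⟨(u : ZMod p), ?_⟩
  have h4 : (u : ZMod p) ^ 3 = 1 := by
    rw [← Units.val_pow_eq_pow_val, h2, Units.val_one]
  have h5 : (u : ZMod p) - 1 ≠ 0 := by
    intro h6
    apply h3
    ext
    rw [Units.val_one]
    linear_combination h6
  have h6 : ((u : ZMod p) - 1) * ((u : ZMod p) ^ 2 + u + 1) = 0 := by linear_combination h4
  rcases mul_eq_zero.1 h6 with h7 | h7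
  · exact absurd h7 h5
  · exact h7

theorem no_root_of_two {p : ℕ} [Fact p.Prime] (h : p % 3 = 2) :
    ¬ ∃ t : ZMod p, t ^ 2 + t + 1 = 0 := by
  rintro ⟨t, ht⟩
  have h1 : t ^ 3 = 1 := by linear_combination (t - 1) * ht
  have h0 : t ≠ 0 := by
    rintro rfl
    simp at ht
  have h2 : t ^ (p - 1) = 1 := ZMod.pow_card_sub_one_eq_one h0
  have h3 : t = 1 := by
    obtain ⟨k, hk⟩ : ∃ k, p - 1 = 3 * k + 1 := ⟨(p - 2) / 3, by omega⟩
    rw [hk, pow_add, pow_mul, h1, one_pow, one_mul, pow_one] at h2
    exact h2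
  rw [h3] at ht
  have h4 : ((3 : ℕ) : ZMod p) = 0 := by
    push_cast
    linear_combination ht
  rw [ZMod.natCast_eq_zero_iff] at h4
  have h5 := (Nat.prime_dvd_prime_iff_eq (Fact.out : p.Prime) Nat.prime_three).1 h4
  omega

theorem frequently_index (a : ℕ) (ha : Nat.Coprime a 3) (ha3 : a < 3) :
    ∃ᶠ i in atTop, Nat.nth Nat.Prime i % 3 = a := by
  rw [frequently_atTop]
  intro N
  obtain ⟨p, hp, hpp, hpa⟩ := Nat.forall_exists_prime_gt_and_modEq (Nat.nth Nat.Prime N)
    (by norm_num : (3 : ℕ) ≠ 0) ha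
  refine ⟨Nat.count Nat.Prime p, ?_, ?_⟩
  · have h1 := Nat.nth_count hpp
    by_contra h2
    push Not at h2
    have h3 : Nat.nth Nat.Prime (Nat.count Nat.Prime p) < Nat.nth Nat.Prime N :=
      (Nat.nth_lt_nth Nat.infinite_setOfPred_prime).2 h2
    omega
  · rw [Nat.nth_count hpp]
    have h1 : p % 3 = a % 3 := hpa
    rw [h1, Nat.mod_eq_of_lt ha3]

/-- **The sequence `log_p inj(H, G_p)`, `p` prime, need not converge.** There is a finite bipartite
graph `H` with at least one edge (the incidence graph of the Möbius-Kantor configuration) for which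
this sequence has the lower limit `-∞` and a nonnegative upper limit; in particular the lower limit
is smaller than the upper one. -/
theorem result : ∃ (a b : ℕ) (E : Fin a → Fin b → Prop), (∃ x y, E x y) ∧
    liminf (seq E) atTop = ⊥ ∧ 0 ≤ limsup (seq E) atTop ∧
    liminf (seq E) atTop < limsup (seq E) atTop ∧
    ¬ ∃ l : EReal, Tendsto (seq E) atTop (𝓝 l) := by
  have h1 : liminf (seq MK) atTop = ⊥ := by
    rw [← le_bot_iff]
    apply liminf_le_of_frequently_le'
    refine (frequently_index 2 (by decide) (by norm_num)).mono fun i hi => ?_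
    have hp : Fact (Nat.nth Nat.Prime i).Prime := ⟨Nat.prime_nth_prime i⟩
    have h2 : inj MK (On (Nat.nth Nat.Prime i)) = 0 := by
      by_contra h3
      exact no_root_of_two hi ((inj_pos_iff _).1 h3)
    rw [seq, logE, if_pos h2]
  have h2 : 0 ≤ limsup (seq MK) atTop := by
    apply le_limsup_of_frequently_le'
    refine (frequently_index 1 (by decide) (by norm_num)).mono fun i hi => ?_
    have hp : Fact (Nat.nth Nat.Prime i).Prime := ⟨Nat.prime_nth_prime i⟩
    have h3 : inj MK (On (Nat.nth Nat.Prime i)) ≠ 0 := (inj_pos_iff _).2 (root_of_one hi)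
    rw [seq, logE, if_neg h3]
    have h4 : (0 : ℝ) ≤ Real.logb (Nat.nth Nat.Prime i) (inj MK (On (Nat.nth Nat.Prime i))) := by
      apply Real.logb_nonneg
      · exact_mod_cast hp.out.one_lt
      · exact_mod_cast Nat.one_le_iff_ne_zero.2 h3
    exact_mod_cast h4
  have h3 : liminf (seq MK) atTop < limsup (seq MK) atTop := by
    rw [h1]
    exact lt_of_lt_of_le (by exact EReal.bot_lt_zero) h2
  refine ⟨8, 8, MK, ⟨0, 0, by decide⟩, h1, h2, h3, ?_⟩
  rintro ⟨l, hl⟩
  rw [hl.liminf_eq, hl.limsup_eq] at h3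
  exact lt_irrefl _ h3

end Pool.Agent.Results.MP_5e7574_co.PrimeOrderPlanes
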